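import Pool.Agent.Helper93_ABCT.StmtK
import Pool.Agent.Helper32_ABCT.Api2
import Pool.Agent.Helper3_ABCT.Coord
import Pool.Agent.Helper3_ABCT.Evn

/-!
# ABCT, module KPSI: the field embedding given by facet data (helper91)
-/

open MvPolynomial

namespace PosGeom.H91

open ABCT PosGeom.H3

theorem lmono_zsmul {V K : Type*} [Field K] (y : V → K) (n : ℤ) (m : V →₀ ℤ) :
    lmono y (n • m) = lmono y m ^ n := by
  classical
  rw [lmono_eq_prod y (n • m) m.support Finsupp.support_smul, lmono, Finsupp.prod,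
    ← Finset.prod_zpow]
  refine Finset.prod_congr rfl fun v _ => ?_
  rw [Finsupp.smul_apply, smul_eq_mul, mul_comm, zpow_mul]

theorem lmono_sum {V K : Type*} [Field K] (y : V → K) (hy : ∀ v, y v ≠ 0) {σ : Type*}
    (s : Finset σ) (a : σ → ℤ) (b : σ → (V →₀ ℤ)) :
    lmono y (∑ j ∈ s, a j • b j) = ∏ j ∈ s, lmono y (b j) ^ a j := by
  classical
  induction s using Finset.induction_on with
  | empty => simp [lmono_zero]
  | insert i s hi ih =>
    rw [Finset.sum_insert hi, Finset.prod_insert hi, lmono_add y hy, lmono_zsmul, ih]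

theorem lmono_psi {S S' : FlatCell} (φ : FacetData S S') (m : S.V →₀ ℤ) :
    lmono φ.psi m = sVar S'.F ^ φ.pair m * RatFunc.C (φ.wmono m) := by
  have h1 : lmono φ.psi m = lmono (fun v => sVar S'.F ^ φ.lam v) m *
      lmono (fun v => RatFunc.C (φ.w v)) m := lmono_mul _ _ _
  rw [h1, ← lmono_map, ← wmono_eq]
  congr 1
  rw [lmono, FacetData.pair, Finsupp.prod, Finsupp.sum, zpow_sum₀ s_ne_zero]
  refine Finset.prod_congr rfl fun v _ => ?_
  rw [zpow_mul]

theorem lmono_pos {V W : Type} {y : V → Fr W} (hy : ∀ v, ABCT.PosF (y v)) (m : V →₀ ℤ) :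
    ABCT.PosF (lmono y m) :=
  ABCT.PosF.prod _ _ fun v _ => (hy v).zpow _

/-- Independence after adding the parameter. -/
theorem ai_cons {F : Type} [Field F] [Algebra ℂ F] {d : ℕ} {t : Fin d → F}
    (ht : AlgebraicIndependent ℂ t) {w : F} (hw : w ≠ 0) :
    AlgebraicIndependent ℂ
      (Fin.cons (sVar F * RatFunc.C w) (fun k => RatFunc.C (t k)) : Fin (d + 1) → RatFunc F) := by
  have hinj : Function.Injective (algebraMap (Polynomial F) (RatFunc F)) :=
    IsFractionRing.injective _ _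
  have h0 : AlgebraicIndependent ℂ
      (Fin.cons (Polynomial.C w * Polynomial.X) (fun k => Polynomial.C (t k)) :
        Fin (d + 1) → Polynomial F) := by
    rw [algebraicIndependent_iff]
    intro P hP
    have e1 : ∀ P : MvPolynomial (Fin (d + 1)) ℂ, aeval
        (Fin.cons (Polynomial.C w * Polynomial.X) (fun k => Polynomial.C (t k)) :
        Fin (d + 1) → Polynomial F) P =
        ((finSuccEquiv ℂ d P).map ((aeval t : MvPolynomial (Fin d) ℂ →ₐ[ℂ] F) : _ →+* F)).comp
          (Polynomial.C w * Polynomial.X) := by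
      intro P
      induction P using MvPolynomial.induction_on with
      | C a =>
        rw [aeval_C]
        have : finSuccEquiv ℂ d (C a) = Polynomial.C (C a) := by
          rw [finSuccEquiv_apply]; simp
        rw [this, Polynomial.map_C, Polynomial.C_comp]
        rw [Polynomial.algebraMap_apply]
        simp
      | add p q hp hq => rw [map_add, map_add, hp, hq, Polynomial.map_add, Polynomial.add_comp]
      | mul_X p i hp =>
        rw [map_mul, map_mul, hp, Polynomial.map_mul, Polynomial.mul_comp, aeval_X]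
        congr 1
        refine Fin.cases ?_ (fun j => ?_) i
        · rw [finSuccEquiv_X_zero, Polynomial.map_X, Polynomial.X_comp, Fin.cons_zero]
        · rw [finSuccEquiv_X_succ, Polynomial.map_C, Polynomial.C_comp, Fin.cons_succ]
          simp
    rw [e1] at hP
    have h1 : finSuccEquiv ℂ d P = 0 := by
      ext1 n
      have h2 := congrArg (fun q => Polynomial.coeff q n) hP
      simp only [Polynomial.comp_C_mul_X_coeff, Polynomial.coeff_map, Polynomial.coeff_zero] at h2
      have h3 := (mul_eq_zero.1 h2).resolve_right (pow_ne_zero _ hw)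
      rw [Polynomial.coeff_zero]
      exact algebraicIndependent_iff.1 ht _ h3
    exact (map_eq_zero_iff _ (finSuccEquiv ℂ d).injective).1 h1
  have h1 := h0.map' (f := (IsScalarTower.toAlgHom ℂ (Polynomial F) (RatFunc F))) hinj
  refine (iff_of_eq ?_).1 h1
  congr 1
  funext i
  refine Fin.cases ?_ (fun j => ?_) i
  · rw [Function.comp_apply, Fin.cons_zero, Fin.cons_zero]
    change algebraMap (Polynomial F) (RatFunc F) (Polynomial.C w * Polynomial.X) = _
    rw [map_mul, RatFunc.algebraMap_C, RatFunc.algebraMap_X, mul_comm]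
  · rw [Function.comp_apply, Fin.cons_succ, Fin.cons_succ]
    change algebraMap (Polynomial F) (RatFunc F) (Polynomial.C (t j)) = _
    rw [RatFunc.algebraMap_C]

theorem map_evN {σ R S : Type} [CommSemiring R] [CommSemiring S] (f : R →+* S) (x : σ → R)
    (p : MvPolynomial σ ℕ) : f (evN x p) = evN (fun i => f (x i)) p := by
  unfold evN
  rw [hom_eval₂]
  congr 1
  exact Subsingleton.elim _ _

theorem evN_rename {σ τ R : Type} [CommSemiring R] (c : σ → τ) (x : τ → R)
    (p : MvPolynomial σ ℕ) : evN x (rename c p) = evN (fun i => x (c i)) p := by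
  unfold evN
  rw [eval₂_rename]
  rfl

/-- Independence of the images of the chart coordinates. -/
theorem ai_inv (hK : KmonStmt) {K : Type} [Field K] [Algebra ℂ K] {n : ℕ} (z : Fin n → K)
    (hz : ∀ j, z j ≠ 0) (A : Matrix (Fin n) (Fin n) ℤ) (hA : A.det = 1 ∨ A.det = -1)
    (h : AlgebraicIndependent ℂ fun k => ∏ j, z j ^ A k j) : AlgebraicIndependent ℂ z := by
  have hu : IsUnit A.det := by
    rcases hA with h | h <;> rw [h] <;> simp
  have h1 : A⁻¹ * A = 1 := Matrix.nonsing_inv_mul A hu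
  have hdet : (A⁻¹).det ≠ 0 := by
    intro h0
    have := congrArg Matrix.det h1
    rw [Matrix.det_mul, h0, zero_mul, Matrix.det_one] at this
    exact zero_ne_one this
  have hli : LinearIndependent ℤ (fun j => (A⁻¹) j) :=
    Matrix.linearIndependent_rows_of_det_ne_zero hdet
  have hli2 : LinearIndependent ℤ
      (fun j => Finsupp.equivFunOnFinite.symm ((A⁻¹) j)) := by
    rw [Fintype.linearIndependent_iff] at hli ⊢
    intro g hg
    apply hli g
    funext l
    have := congrArg (fun f : Fin n →₀ ℤ => f l) hg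
    simpa [Finsupp.finsetSum_apply, Finset.sum_apply] using this
  have h2 := hK K (Fin n) _ h n _ hli2
  have e : (fun j => (Finsupp.equivFunOnFinite.symm ((A⁻¹) j)).prod fun v m =>
      (∏ l, z l ^ A v l) ^ m) = z := by
    funext j
    rw [Finsupp.prod_fintype _ _ (fun i => zpow_zero _)]
    exact (monomial_inv z hz A hA j).symm
  rw [e] at h2
  exact h2

theorem exists_lift {K : Type} [Field K] [Algebra ℂ K] {d : ℕ} {z : Fin d → K}
    (hz : AlgebraicIndependent ℂ z) : ∃ Φ : Fd d →ₐ[ℂ] K, ∀ j, Φ (yv d j) = z j := by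
  have hz' : Function.Injective (aeval z : MvPolynomial (Fin d) ℂ →ₐ[ℂ] K) := hz
  refine ⟨IsFractionRing.liftAlgHom (A := MvPolynomial (Fin d) ℂ) hz', fun j => ?_⟩
  have h1 := IsFractionRing.lift_algebraMap (K := Fd d)
    (g := ((aeval z : MvPolynomial (Fin d) ℂ →ₐ[ℂ] K) : MvPolynomial (Fin d) ℂ →+* K)) hz' (X j)
  exact h1.trans (aeval_X _ _)

theorem kpsi (hK : KmonStmt) (hU : KlauStmt) (hP : KposStmt) (hL : KlatStmt) : KpsiStmt := by
  classical
  intro ι _ emb S S' hS hS' φ hφ d N N' b b' a a' hN hN'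
  obtain ⟨A, hA, hA0, hAk⟩ := hL ι emb S S' hS hS' φ hφ d N N' b b' a a' hN hN'
  have hw : ∀ v, φ.w v ≠ 0 := fun v => ABCT.PosF.ne_zero (hφ.wpos v)
  have hpsi : ∀ v, φ.psi v ≠ 0 := fun v =>
    mul_ne_zero (zpow_ne_zero _ s_ne_zero) ((map_ne_zero _).2 (hw v))
  have hx' : AlgebraicIndependent ℂ S'.x := by
    have h1 : AlgebraicIndependent ℂ (X : S'.V → MvPolynomial S'.V ℂ) :=
      algebraicIndependent_X S'.V ℂ
    exact h1.map' (f := IsScalarTower.toAlgHom ℂ (MvPolynomial S'.V ℂ) S'.F)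
      (IsFractionRing.injective (MvPolynomial S'.V ℂ) S'.F)
  have hmono : AlgebraicIndependent ℂ fun j => S'.mono (b' j) := hK S'.F S'.V S'.x hx' d b' hN'.ind
  -- the embedding `Φ`
  obtain ⟨Φ, hΦ⟩ := exists_lift hmono
  -- the factors `ξ`
  let n : ℕ := min a' d
  let c : Fin n → Fin d := Fin.castLE (min_le_right _ _)
  have hc : Function.Injective c := Fin.castLE_injective _
  let ξ : Fin d → S'.F := fun k => φ.wmono (∑ j, A k.succ j • b j) / S'.mono (b' k)
  have hmem : S'.gapLamField ≤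
      IntermediateField.adjoin ℂ (Set.range fun j => S'.mono (b' (c j))) := by
    unfold FlatCell.gapLamField
    rw [IntermediateField.adjoin_le_iff]
    rintro _ ⟨m, hm, h0, rfl⟩
    have h1 := hN'.labspan m hm h0
    refine AddSubgroup.closure_induction
      (p := fun m _ => S'.mono m ∈ IntermediateField.adjoin ℂ
        (Set.range fun j => S'.mono (b' (c j)))) ?_ ?_ ?_ ?_ h1
    · rintro _ ⟨j, hj, rfl⟩
      refine IntermediateField.subset_adjoin ℂ _ ⟨⟨j, lt_min hj j.2⟩, ?_⟩
      rfl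
    · rw [mono_eq, lmono_zero]; exact one_mem _
    · intro x y _ _ hx hy
      rw [mono_eq, lmono_add _ xx_ne_zero]
      exact mul_mem hx hy
    · intro x _ hx
      rw [mono_eq, lmono_neg]
      exact inv_mem hx
  have hξ : ∀ k, ∃ P Q : MvPolynomial (Fin n) ℕ, P ≠ 0 ∧ Q ≠ 0 ∧
      ξ k = evN (fun j => S'.mono (b' (c j))) P / evN (fun j => S'.mono (b' (c j))) Q := by
    intro k
    refine hP S' n (fun j => b' (c j)) (hN'.ind.comp c hc) (ξ k) ?_ (hmem (hAk k).2.1)
    exact ABCT.PosF.div (lmono_pos hφ.wpos _) (lmono_pos ABCT.PosF.x _)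
  choose P Q hP0 hQ0 hPQ using hξ
  let h : Fin d → Fd d := fun k => evN (yv d) (rename c (P k)) / evN (yv d) (rename c (Q k))
  have hh : ∀ k, Φ (h k) = ξ k := by
    intro k
    have e : ∀ p : MvPolynomial (Fin n) ℕ, Φ (evN (yv d) (rename c p)) =
        evN (fun j => S'.mono (b' (c j))) p := by
      intro p
      rw [evN_rename]
      have := map_evN (Φ : Fd d →+* S'.F) (fun j => yv d (c j)) p
      refine this.trans ?_
      congr 1
      funext j
      exact hΦ (c j)
    change Φ (_ / _) = _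
    rw [map_div₀, e, e, ← hPQ]
  have hpos : ∀ j, PosGeom.PosF (h j) := by
    intro j
    refine ⟨rename c (P j), rename c (Q j), ?_, ?_, rfl⟩
    · intro h0
      exact hP0 j (rename_injective c hc (by rw [h0, map_zero]))
    · intro h0
      exact hQ0 j (rename_injective c hc (by rw [h0, map_zero]))
  have tri1 : ∀ j : Fin d, (j : ℕ) < a' → h j = 1 := by
    intro j hj
    apply (Φ : Fd d →+* S'.F).injective
    change Φ (h j) = Φ 1
    rw [hh, map_one]
    change _ / _ = _
    rw [(hAk j).2.2 hj, mono_eq, div_self (lmono_ne_zero _ xx_ne_zero _)]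
  have tri2 : ∀ j, h j ∈ IntermediateField.adjoin ℂ
      {f | ∃ i : Fin d, (i : ℕ) < a' ∧ f = yv d i} := by
    intro j
    have e : ∀ p : MvPolynomial (Fin n) ℕ, evN (yv d) (rename c p) ∈
        IntermediateField.adjoin ℂ {f | ∃ i : Fin d, (i : ℕ) < a' ∧ f = yv d i} := by
      intro p
      rw [evN_rename]
      refine if_eval₂ _ _ (fun u => ?_) p
      refine IntermediateField.subset_adjoin ℂ _ ⟨c u, ?_, rfl⟩
      exact lt_of_lt_of_le u.2 (min_le_left _ _)
    exact div_mem (e _) (e _)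
  -- independence
  have hcoord := isCoord_twist (isCoord_yv d) h a' (fun j => posF_ne (hpos j)) tri1 tri2
  have hind : AlgebraicIndependent ℂ fun k => Φ (yv d k * h k) :=
    hcoord.ind.map' (f := Φ) Φ.injective
  have hbeta : ∀ k : Fin d, φ.wmono (∑ j, A k.succ j • b j) = Φ (yv d k * h k) := by
    intro k
    rw [map_mul, hΦ, hh]
    change _ = _ * (_ / _)
    rw [mul_div_cancel₀]
    rw [mono_eq]
    exact lmono_ne_zero _ xx_ne_zero _
  let w₀ : S'.F := φ.wmono (∑ j, A 0 j • b j)
  have hw₀ : w₀ ≠ 0 := lmono_ne_zero _ hw _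
  have hrow : ∀ k, ∏ j, lmono φ.psi (b j) ^ A k j = sVar S'.F ^ φ.pair (∑ j, A k j • b j) *
      RatFunc.C (φ.wmono (∑ j, A k j • b j)) := by
    intro k
    rw [← lmono_sum _ hpsi, lmono_psi]
  have hrow0 : ∏ j, lmono φ.psi (b j) ^ A 0 j = sVar S'.F * RatFunc.C w₀ := by
    rw [hrow, hA0, zpow_one]
  have hrowk : ∀ k : Fin d, ∏ j, lmono φ.psi (b j) ^ A k.succ j =
      RatFunc.C (Φ (yv d k * h k)) := by
    intro k
    rw [hrow, (hAk k).1, zpow_zero, one_mul, hbeta]
  have hzind : AlgebraicIndependent ℂ fun j => lmono φ.psi (b j) := by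
    refine ai_inv hK _ (fun j => lmono_ne_zero _ hpsi _) A hA ?_
    refine (iff_of_eq ?_).1 (ai_cons hind hw₀)
    congr 1
    funext k
    refine Fin.cases ?_ (fun j => ?_) k
    · rw [Fin.cons_zero]; exact hrow0.symm
    · rw [Fin.cons_succ]; exact (hrowk j).symm
  obtain ⟨Ψ, hΨ⟩ := exists_lift hzind
  have hΨm : ∀ k, Ψ (∏ j, yv (d + 1) j ^ A k j) = ∏ j, lmono φ.psi (b j) ^ A k j := by
    intro k
    rw [map_prod]
    refine Finset.prod_congr rfl fun j _ => ?_
    rw [map_zpow₀, hΨ]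
  obtain ⟨ν, hν⟩ := hN.eq
  obtain ⟨R, ρ, hρm, hρP⟩ := hU S (RatFunc S'.F) φ.psi hpsi
  refine ⟨A, Ψ, Φ, h, w₀, φ.wmono ν, φ.pair ν, hA, hΦ, hw₀, lmono_ne_zero _ hw _, hpos, tri1, tri2,
    ?_, ?_, ?_⟩
  · rw [hΨm, hrow0]
  · intro k
    rw [hΨm, hrowk]
  · intro i
    obtain ⟨hmemP, hvP⟩ := hρP (emb i)
    obtain ⟨hmν, hvν⟩ := hρm ν
    have hev : (⟨S.P (emb i), hmemP⟩ : R) = ⟨S.mono ν, hmν⟩ *
        evN (fun j => (⟨S.mono (b j), (hρm (b j)).1⟩ : R)) (N.L i) := by
      apply Subtype.ext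
      rw [MulMemClass.coe_mul]
      have := map_evN (R.val : R →+* S.F) (fun j => (⟨S.mono (b j), (hρm (b j)).1⟩ : R)) (N.L i)
      change _ = S.mono ν * (R.val : R →+* S.F) _
      rw [this]
      exact hν i
    have h2 := congrArg ρ hev
    rw [hvP, map_mul, hvν] at h2
    have h3 : ρ (evN (fun j => (⟨S.mono (b j), (hρm (b j)).1⟩ : R)) (N.L i)) =
        Ψ (N.LF i) := by
      have e1 := map_evN (ρ : R →+* RatFunc S'.F)
        (fun j => (⟨S.mono (b j), (hρm (b j)).1⟩ : R)) (N.L i)
      have e2 := map_evN (Ψ : Fd (d + 1) →+* RatFunc S'.F) (yv (d + 1)) (N.L i)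
      refine e1.trans (Eq.trans ?_ e2.symm)
      congr 1
      funext j
      refine (hρm (b j)).2.trans ?_
      exact (hΨ j).symm
    rw [h3] at h2
    have h4 : (ν.prod fun v n => φ.psi v ^ n) =
        sVar S'.F ^ φ.pair ν * RatFunc.C (φ.wmono ν) := lmono_psi φ ν
    rw [h4] at h2
    exact h2

end PosGeom.H91
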