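import Pool.Agent.Helper91_ABCT.W

/-!
ABCT, module VPLU: exchange and three term relation (helper91)
-/

open MvPolynomial

namespace ABCT.H91

theorem image_update {r : ℕ} {l : List ℕ} (hl : l.Nodup) {q : Fin r → ℕ}
    (hq : ∀ j, q j < l.length) (hinj : Function.Injective q) (i : Fin r) (x : ℕ) :
    (Finset.univ.image fun k => l.getD (Function.update q i x k) 0) =
      insert (l.getD x 0) ((Finset.univ.image fun k => l.getD (q k) 0).erase (l.getD (q i) 0)) := by
  ext y
  simp only [Finset.mem_image, Finset.mem_univ, true_and, Finset.mem_insert, Finset.mem_erase]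
  constructor
  · rintro ⟨k, rfl⟩
    by_cases h : k = i
    · subst h; left; simp
    · right
      rw [Function.update_of_ne h]
      exact ⟨fun e => h (hinj (getD_inj hl (hq k) (hq i) e)), k, rfl⟩
  · rintro (rfl | ⟨hne, k, rfl⟩)
    · exact ⟨i, by simp⟩
    · refine ⟨k, ?_⟩
      rw [Function.update_of_ne]
      rintro rfl
      exact hne rfl

theorem sg_cons {r : ℕ} (x : ℕ) (q : Fin r → ℕ) :
    sg (Fin.cons x q : Fin (r + 1) → ℕ) = (∏ j, Int.sign ((q j : ℤ) - x)) * sg q := by
  unfold sg
  rw [Fin.prod_univ_succ, Fin.prod_Ioi_zero]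
  simp only [Fin.cons_zero, Fin.cons_succ, Fin.prod_Ioi_succ]

theorem image_cons {r : ℕ} (l : List ℕ) (x : ℕ) (q : Fin r → ℕ) :
    (Finset.univ.image fun k => l.getD ((Fin.cons x q : Fin (r + 1) → ℕ) k) 0) =
      insert (l.getD x 0) (Finset.univ.image fun k => l.getD (q k) 0) := by
  ext y
  simp only [Finset.mem_image, Finset.mem_univ, true_and, Finset.mem_insert, Fin.exists_fin_succ,
    Fin.cons_zero, Fin.cons_succ]
  constructor
  · rintro (h | h)
    · exact Or.inl h.symm
    · exact Or.inr h
  · rintro (h | h)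
    · exact Or.inl h.symm
    · exact Or.inr h

theorem W_cons {R : Type*} [CommRing R] {n : ℕ} (l : List ℕ) (z : Finset ℕ → R) (x y : ℕ)
    (k : Fin n → ℕ) :
    Wv l z (Fin.cons x (Fin.cons y k : Fin (n + 1) → ℕ) : Fin (n + 1 + 1) → ℕ) =
      ((Int.sign ((y : ℤ) - x) : ℤ) : R) * (((∏ j, Int.sign ((k j : ℤ) - x) : ℤ) : R) *
        ((∏ j, Int.sign ((k j : ℤ) - y) : ℤ) : R)) * (sg k : R) *
      z (insert (l.getD x 0) (insert (l.getD y 0) (Finset.univ.image fun j => l.getD (k j) 0))) := by
  unfold Wv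
  rw [sg_cons, sg_cons, image_cons, image_cons, Fin.prod_univ_succ]
  simp only [Fin.cons_zero, Fin.cons_succ, Int.cast_mul]
  ring

theorem three {n : ℕ} {l : List ℕ} (hl : l.Nodup) {z : Finset ℕ → ℝ} (hz : z ∈ XV l (n + 1 + 1))
    {k : Fin n → ℕ} (hk : StrictMono k) (hkl : ∀ j, k j < l.length) {a b c d : ℕ}
    (hab : a < b) (hbc : b < c) (hcd : c < d) (hd : d < l.length)
    (na : ∀ j, k j ≠ a) (nb : ∀ j, k j ≠ b) (nc : ∀ j, k j ≠ c) (nd : ∀ j, k j ≠ d)
    {K : Finset ℕ} (hK : (Finset.univ.image fun j => l.getD (k j) 0) = K) :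
    z (insert (l.getD a 0) (insert (l.getD c 0) K)) * z (insert (l.getD b 0) (insert (l.getD d 0) K))
      = z (insert (l.getD a 0) (insert (l.getD b 0) K)) *
          z (insert (l.getD c 0) (insert (l.getD d 0) K)) +
        z (insert (l.getD a 0) (insert (l.getD d 0) K)) *
          z (insert (l.getD b 0) (insert (l.getD c 0) K)) := by
  have hlt : ∀ x y : ℕ, x < l.length → y < l.length →
      ∀ j, (Fin.cons x (Fin.cons y k : Fin (n + 1) → ℕ) : Fin (n + 1 + 1) → ℕ) j < l.length := by
    intro x y hx hy j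
    refine Fin.cases ?_ (fun j => ?_) j
    · simpa using hx
    · rw [Fin.cons_succ]
      refine Fin.cases ?_ (fun j => ?_) j
      · simpa using hy
      · rw [Fin.cons_succ]; exact hkl j
  have h := XV_exchange hl hz (hlt a c (by omega) (by omega)) (hlt b d (by omega) (by omega)) 0
  rw [Fin.sum_univ_succ, Fin.sum_univ_succ] at h
  simp only [Fin.cons_zero, Fin.cons_succ, Fin.update_cons_zero, ← Fin.cons_update] at h
  have h0 : ∑ j : Fin n, Wv l z (Fin.cons (k j) (Fin.cons c k : Fin (n + 1) → ℕ) :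
      Fin (n + 1 + 1) → ℕ) * Wv l z (Fin.cons b (Fin.cons d (Function.update k j a) :
      Fin (n + 1) → ℕ) : Fin (n + 1 + 1) → ℕ) = 0 := by
    refine Finset.sum_eq_zero fun j _ => ?_
    rw [W_cons, Finset.prod_eq_zero (i := j) (Finset.mem_univ j)]
    · simp
    · simp
  rw [h0, add_zero] at h
  simp only [W_cons, hK] at h
  have sp : ∀ x y : ℕ, x < y → Int.sign ((y : ℤ) - x) = 1 := fun x y hxy =>
    Int.sign_eq_one_of_pos (by omega)
  have sn : ∀ x y : ℕ, y < x → Int.sign ((y : ℤ) - x) = -1 := fun x y hxy =>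
    Int.sign_eq_neg_one_of_neg (by omega)
  rw [sp a c (by omega), sp b d (by omega), sp b c (by omega), sp a d (by omega),
    sn d c (by omega), sn b a (by omega)] at h
  rw [Finset.insert_comm (l.getD d 0) (l.getD c 0), Finset.insert_comm (l.getD b 0) (l.getD a 0)]
    at h
  have hs : ∀ x : ℕ, (∀ j, k j ≠ x) → ((∏ j, Int.sign ((k j : ℤ) - x) : ℤ) : ℝ) ≠ 0 := by
    intro x hx
    rw [Int.cast_ne_zero, Finset.prod_ne_zero_iff]
    intro j _
    rw [Ne, Int.sign_eq_zero_iff_zero]
    have := hx j
    omega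
  have e1 : (sg k : ℝ) = 1 := by rw [sg_mono hk]; simp
  rw [e1] at h
  have ha := hs a na
  have hb := hs b nb
  have hc := hs c nc
  have hd' := hs d nd
  generalize ((∏ j, Int.sign ((k j : ℤ) - a) : ℤ) : ℝ) = A at *
  generalize ((∏ j, Int.sign ((k j : ℤ) - b) : ℤ) : ℝ) = B at *
  generalize ((∏ j, Int.sign ((k j : ℤ) - c) : ℤ) : ℝ) = C at *
  generalize ((∏ j, Int.sign ((k j : ℤ) - d) : ℤ) : ℝ) = D at *
  have hABCD : A * B * C * D ≠ 0 := by positivity
  apply mul_left_cancel₀ hABCD
  push_cast at h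
  linear_combination h

/-- VPLU -/
theorem plucker : PluckerStmt := by
  refine ⟨fun l r z hz I hI => XV_supp hz hI, ?_, ?_⟩
  · intro l r hl z hz I I' hI hI' e he he'
    obtain ⟨q, hq, hql, hqI⟩ := exists_pos hl (XV_supp hz hI)
    obtain ⟨q', hq', hql', hqI'⟩ := exists_pos hl (XV_supp hz hI')
    have hemem := he
    rw [← hqI] at hemem
    simp only [Finset.mem_image, Finset.mem_univ, true_and] at hemem
    obtain ⟨i, hi⟩ := hemem
    have h := XV_exchange hl hz hql hql' i
    rw [W_mono l z hq, W_mono l z hq', hqI, hqI'] at h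
    have hne : ∑ j, Wv l z (Function.update q i (q' j)) * Wv l z (Function.update q' j (q i)) ≠ 0 :=
      h ▸ mul_ne_zero hI hI'
    obtain ⟨j, _, hj⟩ := Finset.exists_ne_zero_of_sum_ne_zero hne
    have hj1 := left_ne_zero_of_mul hj
    have hj2 := right_ne_zero_of_mul hj
    unfold Wv at hj1 hj2
    rw [image_update hl hql hq.injective, hqI, hi] at hj1
    rw [image_update hl hql' hq'.injective, hqI', hi] at hj2
    have hs1 : sg (Function.update q i (q' j)) ≠ 0 := by
      have := left_ne_zero_of_mul hj1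
      exact_mod_cast this
    refine ⟨l.getD (q' j) 0, ?_, ?_, right_ne_zero_of_mul hj1, right_ne_zero_of_mul hj2⟩
    · rw [← hqI']
      exact Finset.mem_image_of_mem (fun k => l.getD (q' k) 0) (Finset.mem_univ j)
    · intro hcon
      rw [← hqI] at hcon
      simp only [Finset.mem_image, Finset.mem_univ, true_and] at hcon
      obtain ⟨k, hk⟩ := hcon
      by_cases hki : k = i
      · subst hki
        apply he'
        rw [← hi, hk, ← hqI']
        exact Finset.mem_image_of_mem (fun k => l.getD (q' k) 0) (Finset.mem_univ j)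
      · have hkj : q k = q' j := getD_inj hl (hql k) (hql' j) hk
        apply hki
        apply sg_ne hs1
        rw [Function.update_of_ne hki, Function.update_self, hkj]
  · intro l r hl z hz K a b c d hab hbc hcd hd ha hb hc hd'
    by_cases hK : K ⊆ l.toFinset ∧ K.card + 2 = r
    · obtain ⟨hKl, rfl⟩ := hK
      obtain ⟨k, hk, hkl, hkK⟩ := exists_pos hl (Finset.mem_powersetCard.2 ⟨hKl, rfl⟩)
      have hn : ∀ x, l.getD x 0 ∉ K → ∀ j, k j ≠ x := by
        rintro x hx j rfl
        apply hx
        rw [← hkK]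
        exact Finset.mem_image_of_mem (fun j => l.getD (k j) 0) (Finset.mem_univ j)
      exact three hl hz hk hkl hab hbc hcd hd (hn a ha) (hn b hb) (hn c hc) (hn d hd') hkK
    · have h0 : ∀ x y, x < y → y < l.length → l.getD x 0 ∉ K → l.getD y 0 ∉ K →
          z (insert (l.getD x 0) (insert (l.getD y 0) K)) = 0 := by
        intro x y hxy hy hxK hyK
        by_contra hcon
        apply hK
        have := XV_supp hz hcon
        rw [Finset.mem_powersetCard, Finset.card_insert_of_notMem, Finset.card_insert_of_notMem hyK]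
          at this
        · exact ⟨((Finset.subset_insert _ _).trans (Finset.subset_insert _ _)).trans this.1, this.2⟩
        · rw [Finset.mem_insert]
          rintro (h | h)
          · have := getD_inj hl (by omega) hy h
            omega
          · exact hxK h
      rw [h0 a c (by omega) (by omega) ha hc, h0 a b (by omega) (by omega) ha hb,
        h0 a d (by omega) (by omega) ha hd']
      simp

end ABCT.H91
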