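import Pool.Agent.Helper32_ABCT.Stmts2

/-!
ABCT, alternating extension of vectors indexed by sets (helper91)
-/

open MvPolynomial

namespace ABCT.H91

/-- sign of the permutation which sorts `q` (zero if `q` is not injective) -/
def sg {r : ℕ} (q : Fin r → ℕ) : ℤ :=
  ∏ i : Fin r, ∏ j ∈ Finset.Ioi i, Int.sign ((q j : ℤ) - q i)

/-- alternating extension -/
def Wv {R : Type*} [CommRing R] {r : ℕ} (l : List ℕ) (z : Finset ℕ → R) (q : Fin r → ℕ) : R :=
  (sg q : R) * z (Finset.univ.image fun j => l.getD (q j) 0)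

/-- determinant of columns -/
def Dt {R : Type*} [CommRing R] {r : ℕ} (v : ℕ → Fin r → R) (q : Fin r → ℕ) : R :=
  (Matrix.of fun i j : Fin r => v (q j) i).det

theorem prod_Ioi {M : Type*} [CommMonoid M] {r : ℕ} (F : Fin r → Fin r → M) :
    ∏ i : Fin r, ∏ j ∈ Finset.Ioi i, F i j =
      ∏ p ∈ (Finset.univ : Finset (Fin r × Fin r)).filter (fun p => p.1 < p.2), F p.1 p.2 := by
  rw [Finset.prod_filter, ← Finset.univ_product_univ, Finset.prod_product]
  refine Finset.prod_congr rfl fun i _ => ?_
  rw [← Finset.prod_filter]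
  refine Finset.prod_congr ?_ fun _ _ => rfl
  ext j; simp

theorem sg_ne {r : ℕ} {q : Fin r → ℕ} (h : sg q ≠ 0) : Function.Injective q := by
  intro i j hij
  by_contra hne
  apply h
  unfold sg
  rw [prod_Ioi]
  rcases lt_or_gt_of_ne hne with h1 | h1
  · refine Finset.prod_eq_zero (i := (i, j)) (by simp [h1]) ?_
    simp [hij]
  · refine Finset.prod_eq_zero (i := (j, i)) (by simp [h1]) ?_
    simp [hij]

theorem sg_mono {r : ℕ} {q : Fin r → ℕ} (h : StrictMono q) : sg q = 1 := by
  unfold sg
  refine Finset.prod_eq_one fun i _ => Finset.prod_eq_one fun j hj => ?_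
  rw [Finset.mem_Ioi] at hj
  have := h hj
  exact Int.sign_eq_one_of_pos (by omega)

theorem getD_inj {l : List ℕ} (hl : l.Nodup) {a b : ℕ} (ha : a < l.length) (hb : b < l.length)
    (h : l.getD a 0 = l.getD b 0) : a = b := by
  rw [List.getD_eq_getElem _ _ ha, List.getD_eq_getElem _ _ hb] at h
  exact (List.Nodup.getElem_inj_iff hl).1 h

theorem prod_prs {R : Type*} [CommRing R] {r : ℕ} {l : List ℕ} (hl : l.Nodup) (t : ℕ → R)
    {q : Fin r → ℕ} (hq : ∀ j, q j < l.length) (hinj : Function.Injective q) :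
    (sg q : R) * ∏ p ∈ prsAll l (Finset.univ.image fun j => l.getD (q j) 0),
        (t (l.getD p.2 0) - t (l.getD p.1 0)) =
      ∏ i : Fin r, ∏ j ∈ Finset.Ioi i, (t (l.getD (q j) 0) - t (l.getD (q i) 0)) := by
  have h1 : ∏ p ∈ prsAll l (Finset.univ.image fun j => l.getD (q j) 0),
        (t (l.getD p.2 0) - t (l.getD p.1 0)) =
      ∏ p ∈ (Finset.univ : Finset (Fin r × Fin r)).filter (fun p => p.1 < p.2),
        (t (l.getD (max (q p.1) (q p.2)) 0) - t (l.getD (min (q p.1) (q p.2)) 0)) := by
    symm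
    refine Finset.prod_bij (fun p _ => (min (q p.1) (q p.2), max (q p.1) (q p.2))) ?_ ?_ ?_ ?_
    · rintro ⟨i, j⟩ hp
      simp only [Finset.mem_filter, Finset.mem_univ, true_and] at hp
      have hne : q i ≠ q j := fun h => (ne_of_lt hp) (hinj h)
      simp only [prsAll, Finset.mem_filter, Finset.mem_product, Finset.mem_range,
        Finset.mem_image, Finset.mem_univ, true_and]
      rcases lt_or_gt_of_ne hne with h | h
      · rw [min_eq_left h.le, max_eq_right h.le]
        exact ⟨⟨hq i, hq j⟩, h, ⟨i, rfl⟩, ⟨j, rfl⟩⟩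
      · rw [min_eq_right h.le, max_eq_left h.le]
        exact ⟨⟨hq j, hq i⟩, h, ⟨j, rfl⟩, ⟨i, rfl⟩⟩
    · rintro ⟨i, j⟩ hp ⟨i', j'⟩ hp' h
      simp only [Finset.mem_filter, Finset.mem_univ, true_and] at hp hp'
      simp only [Prod.mk.injEq] at h
      obtain ⟨h1, h2⟩ := h
      have hcase : (q i = q i' ∧ q j = q j') ∨ (q i = q j' ∧ q j = q i') := by
        rcases le_total (q i) (q j) with a | a <;> rcases le_total (q i') (q j') with b | b
        · left; simp only [min_eq_left a, min_eq_left b, max_eq_right a, max_eq_right b] at h1 h2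
          exact ⟨h1, h2⟩
        · right; simp only [min_eq_left a, min_eq_right b, max_eq_right a, max_eq_left b] at h1 h2
          exact ⟨h1, h2⟩
        · right; simp only [min_eq_right a, min_eq_left b, max_eq_left a, max_eq_right b] at h1 h2
          exact ⟨h2, h1⟩
        · left; simp only [min_eq_right a, min_eq_right b, max_eq_left a, max_eq_left b] at h1 h2
          exact ⟨h2, h1⟩
      rcases hcase with ⟨a, b⟩ | ⟨a, b⟩
      · rw [hinj a, hinj b]
      · have e1 := hinj a
        have e2 := hinj b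
        subst e1; subst e2
        exact absurd (lt_trans hp hp') (lt_irrefl _)
    · rintro ⟨a, b⟩ hab
      simp only [prsAll, Finset.mem_filter, Finset.mem_product, Finset.mem_range,
        Finset.mem_image, Finset.mem_univ, true_and] at hab
      obtain ⟨⟨ha, hb⟩, hlt, ⟨i, hi⟩, ⟨j, hj⟩⟩ := hab
      have ea : q i = a := getD_inj hl (hq i) ha hi
      have eb : q j = b := getD_inj hl (hq j) hb hj
      have hij : i ≠ j := by
        rintro rfl
        omega
      rcases lt_or_gt_of_ne hij with h | h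
      · refine ⟨(i, j), by simp [h], ?_⟩
        simp only [ea, eb]
        rw [min_eq_left hlt.le, max_eq_right hlt.le]
      · refine ⟨(j, i), by simp [h], ?_⟩
        simp only [ea, eb]
        rw [min_eq_right hlt.le, max_eq_left hlt.le]
    · rintro ⟨i, j⟩ _
      rfl
  rw [h1, prod_Ioi, sg, prod_Ioi, Int.cast_prod, ← Finset.prod_mul_distrib]
  refine Finset.prod_congr rfl ?_
  rintro ⟨i, j⟩ hp
  simp only [Finset.mem_filter, Finset.mem_univ, true_and] at hp
  have hne : q i ≠ q j := fun h => (ne_of_lt hp) (hinj h)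
  rcases lt_or_gt_of_ne hne with h | h
  · have e : Int.sign ((q j : ℤ) - q i) = 1 := Int.sign_eq_one_of_pos (by omega)
    simp only [e, max_eq_right h.le, min_eq_left h.le]
    push_cast; ring
  · have e : Int.sign ((q j : ℤ) - q i) = -1 := Int.sign_eq_neg_one_of_neg (by omega)
    simp only [e, max_eq_left h.le, min_eq_right h.le]
    push_cast; ring

theorem image_mem {r : ℕ} {l : List ℕ} (hl : l.Nodup) {q : Fin r → ℕ}
    (hq : ∀ j, q j < l.length) (hinj : Function.Injective q) :
    (Finset.univ.image fun j => l.getD (q j) 0) ∈ l.toFinset.powersetCard r := by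
  rw [Finset.mem_powersetCard]
  constructor
  · intro x hx
    simp only [Finset.mem_image, Finset.mem_univ, true_and] at hx
    obtain ⟨j, rfl⟩ := hx
    rw [List.mem_toFinset, List.getD_eq_getElem _ _ (hq j)]
    exact List.getElem_mem _
  · rw [Finset.card_image_of_injective, Finset.card_univ, Fintype.card_fin]
    intro i j h
    exact hinj (getD_inj hl (hq i) (hq j) h)

/-- The alternating extension of a Vandermonde vector is a determinant. -/
theorem W_Q {R : Type*} [CommRing R] {r : ℕ} {l : List ℕ} (hl : l.Nodup) (κ : R) (c t : ℕ → R)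
    {q : Fin r → ℕ} (hq : ∀ j, q j < l.length) :
    Wv l (Q l r κ c t) q =
      κ * Dt (fun x (i : Fin r) => c (l.getD x 0) * t (l.getD x 0) ^ (i : ℕ)) q := by
  have hD : Dt (fun x (i : Fin r) => c (l.getD x 0) * t (l.getD x 0) ^ (i : ℕ)) q =
      (∏ j, c (l.getD (q j) 0)) *
        ∏ i : Fin r, ∏ j ∈ Finset.Ioi i, (t (l.getD (q j) 0) - t (l.getD (q i) 0)) := by
    unfold Dt
    rw [← Matrix.det_vandermonde, ← Matrix.det_transpose (Matrix.vandermonde _)]
    exact Matrix.det_mul_row (fun j => c (l.getD (q j) 0))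
      (Matrix.vandermonde fun j => t (l.getD (q j) 0)).transpose
  rw [hD]
  by_cases hinj : Function.Injective q
  · unfold Wv Q
    rw [if_pos (image_mem hl hq hinj), ← prod_prs hl t hq hinj, Finset.prod_image]
    · ring
    · intro i _ j _ h
      exact hinj (getD_inj hl (hq i) (hq j) h)
  · have h0 : sg q = 0 := by
      by_contra h
      exact hinj (sg_ne h)
    unfold Wv
    rw [h0]
    simp only [Function.Injective, not_forall] at hinj
    obtain ⟨i, j, hij, hne⟩ := hinj
    have h1 : ∏ i : Fin r, ∏ j ∈ Finset.Ioi i, (t (l.getD (q j) 0) - t (l.getD (q i) 0)) = 0 := by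
      rw [prod_Ioi]
      rcases lt_or_gt_of_ne hne with h | h
      · exact Finset.prod_eq_zero (i := (i, j)) (by simp [h]) (by simp [hij])
      · exact Finset.prod_eq_zero (i := (j, i)) (by simp [h]) (by simp [hij])
    rw [h1]
    simp

/-! ### identities for determinants -/

theorem Dt_update {R : Type*} [CommRing R] {r : ℕ} (v : ℕ → Fin r → R) (q : Fin r → ℕ) (i : Fin r)
    (x : ℕ) : Dt v (Function.update q i x) =
      Matrix.cramer (Matrix.of fun i j : Fin r => v (q j) i) (v x) i := by
  unfold Dt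
  rw [Matrix.cramer_apply]
  congr 1
  ext a b
  rw [Matrix.of_apply, Matrix.updateCol_apply]
  by_cases h : b = i
  · subst h; simp
  · simp [h]

/-- first identity -/
theorem Dt_cramer {R : Type*} [CommRing R] {r : ℕ} (v : ℕ → Fin r → R) (p₀ p : Fin r → ℕ) :
    Dt v p₀ ^ (r - 1) * Dt v p =
      (Matrix.of fun i j : Fin r => Dt v (Function.update p₀ i (p j))).det := by
  have h1 : (Matrix.of fun i j : Fin r => Dt v (Function.update p₀ i (p j))) =
      (Matrix.of fun i j : Fin r => v (p₀ j) i).adjugate * Matrix.of fun i j : Fin r => v (p j) i := by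
    ext i j
    rw [Matrix.of_apply, Dt_update, Matrix.cramer_eq_adjugate_mulVec]
    rfl
  rw [h1, Matrix.det_mul, Matrix.det_adjugate, Fintype.card_fin]
  rfl

/-- second identity -/
theorem Dt_exchange {R : Type*} [CommRing R] {r : ℕ} (v : ℕ → Fin r → R) (q q' : Fin r → ℕ)
    (i : Fin r) :
    Dt v q * Dt v q' =
      ∑ j, Dt v (Function.update q i (q' j)) * Dt v (Function.update q' j (q i)) := by
  have h1 := Matrix.mulVec_cramer (Matrix.of fun i j : Fin r => v (q' j) i) (v (q i))
  have h2 := congrArg (fun w => Matrix.cramer (Matrix.of fun i j : Fin r => v (q j) i) w i) h1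
  simp only [map_smul, Pi.smul_apply, smul_eq_mul] at h2
  rw [← Dt_update, Function.update_eq_self] at h2
  have h3 : (Matrix.of fun i j : Fin r => v (q' j) i).mulVec
      (Matrix.cramer (Matrix.of fun i j : Fin r => v (q' j) i) (v (q i))) =
      ∑ j, (Dt v (Function.update q' j (q i))) • v (q' j) := by
    ext k
    simp only [Matrix.mulVec, dotProduct, Matrix.of_apply, Finset.sum_apply, Pi.smul_apply,
      smul_eq_mul]
    refine Finset.sum_congr rfl fun j _ => ?_
    rw [Dt_update, mul_comm]
  rw [h3, map_sum] at h2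
  simp only [map_smul, Finset.sum_apply, Pi.smul_apply, smul_eq_mul, ← Dt_update] at h2
  rw [mul_comm (Dt v q)]
  refine h2.symm.trans (Finset.sum_congr rfl fun j _ => mul_comm _ _)

/-! ### transfer to the Zariski closure -/

theorem Wv_map {R S : Type*} [CommRing R] [CommRing S] (φ : R →+* S) {r : ℕ} (l : List ℕ)
    (z : Finset ℕ → R) (q : Fin r → ℕ) : φ (Wv l z q) = Wv l (fun I => φ (z I)) q := by
  simp [Wv]

theorem aeval_W {r : ℕ} (l : List ℕ) (z : Finset ℕ → ℂ) (q : Fin r → ℕ) :
    aeval z (Wv l (fun I => (X I : MvPolynomial (Finset ℕ) ℂ)) q) = Wv l z q := by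
  simp [Wv]

theorem W_real {r : ℕ} (l : List ℕ) (z : Finset ℕ → ℝ) (q : Fin r → ℕ) :
    Wv l (fun I => ((z I : ℝ) : ℂ)) q = ((Wv l z q : ℝ) : ℂ) :=
  (Wv_map Complex.ofRealHom l z q).symm

theorem lt_update {r n : ℕ} {q : Fin r → ℕ} (hq : ∀ j, q j < n) {i : Fin r} {x : ℕ} (hx : x < n) :
    ∀ j, Function.update q i x j < n := by
  intro j
  by_cases h : j = i
  · subst h; simpa using hx
  · rw [Function.update_of_ne h]; exact hq j

theorem XV_cramer {r : ℕ} {l : List ℕ} (hl : l.Nodup) {z : Finset ℕ → ℝ} (hz : z ∈ XV l r)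
    (hr : 1 ≤ r) {p₀ p : Fin r → ℕ} (h0 : ∀ j, p₀ j < l.length) (hp : ∀ j, p j < l.length) :
    Wv l z p₀ ^ (r - 1) * Wv l z p =
      (Matrix.of fun i j : Fin r => Wv l z (Function.update p₀ i (p j))).det := by
  have h := hz (Wv l (fun I => (X I : MvPolynomial (Finset ℕ) ℂ)) p₀ ^ (r - 1) *
    Wv l (fun I => (X I : MvPolynomial (Finset ℕ) ℂ)) p -
      (Matrix.of fun i j : Fin r =>
        Wv l (fun I => (X I : MvPolynomial (Finset ℕ) ℂ)) (Function.update p₀ i (p j))).det)
  have hmap : ∀ w : Finset ℕ → ℂ, aeval w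
      (Wv l (fun I => (X I : MvPolynomial (Finset ℕ) ℂ)) p₀ ^ (r - 1) *
        Wv l (fun I => (X I : MvPolynomial (Finset ℕ) ℂ)) p -
      (Matrix.of fun i j : Fin r =>
        Wv l (fun I => (X I : MvPolynomial (Finset ℕ) ℂ)) (Function.update p₀ i (p j))).det) =
      Wv l w p₀ ^ (r - 1) * Wv l w p -
        (Matrix.of fun i j : Fin r => Wv l w (Function.update p₀ i (p j))).det := by
    intro w
    have hm : (aeval w).mapMatrix (Matrix.of fun i j : Fin r =>
        Wv l (fun I => (X I : MvPolynomial (Finset ℕ) ℂ)) (Function.update p₀ i (p j))) =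
        Matrix.of fun i j : Fin r => Wv l w (Function.update p₀ i (p j)) := by
      ext i j
      simp only [AlgHom.mapMatrix_apply, Matrix.map_apply, Matrix.of_apply]
      exact aeval_W l w _
    rw [map_sub, map_mul, map_pow, aeval_W, aeval_W, AlgHom.map_det, hm]
  simp only [hmap] at h
  have h1 := h (by
    intro κ c t
    rw [W_Q hl κ c t h0, W_Q hl κ c t hp]
    have e : (Matrix.of fun i j : Fin r => Wv l (Q l r κ c t) (Function.update p₀ i (p j))) =
        κ • (Matrix.of fun i j : Fin r => Dt (fun x (i : Fin r) => c (l.getD x 0) *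
          t (l.getD x 0) ^ (i : ℕ)) (Function.update p₀ i (p j))) := by
      ext i j
      rw [Matrix.of_apply, Matrix.smul_apply, Matrix.of_apply, smul_eq_mul,
        W_Q hl κ c t (lt_update h0 (hp j))]
    rw [e, Matrix.det_smul, ← Dt_cramer, Fintype.card_fin]
    obtain ⟨m, rfl⟩ : ∃ m, r = m + 1 := ⟨r - 1, by omega⟩
    simp only [Nat.add_sub_cancel]
    ring)
  rw [W_real, W_real] at h1
  have e : (Matrix.of fun i j : Fin r =>
      Wv l (fun I => ((z I : ℝ) : ℂ)) (Function.update p₀ i (p j))).det =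
      (((Matrix.of fun i j : Fin r => Wv l z (Function.update p₀ i (p j))).det : ℝ) : ℂ) := by
    have := RingHom.map_det Complex.ofRealHom
      (Matrix.of fun i j : Fin r => Wv l z (Function.update p₀ i (p j)))
    refine Eq.trans ?_ this.symm
    congr 1
    ext i j
    simp only [RingHom.mapMatrix_apply, Matrix.map_apply, Matrix.of_apply]
    exact W_real l z _
  rw [e] at h1
  exact_mod_cast sub_eq_zero.1 h1

theorem XV_exchange {r : ℕ} {l : List ℕ} (hl : l.Nodup) {z : Finset ℕ → ℝ} (hz : z ∈ XV l r)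
    {q q' : Fin r → ℕ} (h0 : ∀ j, q j < l.length) (hp : ∀ j, q' j < l.length) (i : Fin r) :
    Wv l z q * Wv l z q' =
      ∑ j, Wv l z (Function.update q i (q' j)) * Wv l z (Function.update q' j (q i)) := by
  have h := hz (Wv l (fun I => (X I : MvPolynomial (Finset ℕ) ℂ)) q *
    Wv l (fun I => (X I : MvPolynomial (Finset ℕ) ℂ)) q' -
      ∑ j, Wv l (fun I => (X I : MvPolynomial (Finset ℕ) ℂ)) (Function.update q i (q' j)) *
        Wv l (fun I => (X I : MvPolynomial (Finset ℕ) ℂ)) (Function.update q' j (q i)))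
  simp only [map_sub, map_mul, map_sum, aeval_W] at h
  have h1 := h (by
    intro κ c t
    rw [W_Q hl κ c t h0, W_Q hl κ c t hp]
    have e : ∀ j, Wv l (Q l r κ c t) (Function.update q i (q' j)) *
        Wv l (Q l r κ c t) (Function.update q' j (q i)) =
        κ * κ * (Dt (fun x (i : Fin r) => c (l.getD x 0) *
          t (l.getD x 0) ^ (i : ℕ)) (Function.update q i (q' j)) *
          Dt (fun x (i : Fin r) => c (l.getD x 0) *
          t (l.getD x 0) ^ (i : ℕ)) (Function.update q' j (q i))) := by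
      intro j
      rw [W_Q hl κ c t (lt_update h0 (hp j)), W_Q hl κ c t (lt_update hp (h0 i))]
      ring
    simp only [e]
    rw [← Finset.mul_sum, ← Dt_exchange]
    ring)
  simp only [W_real] at h1
  have h2 := sub_eq_zero.1 h1
  exact_mod_cast h2

/-- the support -/
theorem XV_supp {r : ℕ} {l : List ℕ} {z : Finset ℕ → ℝ} (hz : z ∈ XV l r) {I : Finset ℕ}
    (hI : z I ≠ 0) : I ∈ l.toFinset.powersetCard r := by
  by_contra hcon
  apply hI
  have h := hz (X I) (by
    intro κ c t
    rw [aeval_X]
    unfold Q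
    rw [if_neg hcon])
  rw [aeval_X] at h
  exact_mod_cast h

/-- positions of a set of labels -/
theorem exists_pos {r : ℕ} {l : List ℕ} (hl : l.Nodup) {I : Finset ℕ}
    (hI : I ∈ l.toFinset.powersetCard r) : ∃ p : Fin r → ℕ, StrictMono p ∧
      (∀ j, p j < l.length) ∧ (Finset.univ.image fun j => l.getD (p j) 0) = I := by
  rw [Finset.mem_powersetCard] at hI
  have hcard : ((Finset.range l.length).filter fun a => l.getD a 0 ∈ I).card = r := by
    rw [← hI.2]
    refine Finset.card_bij (fun a _ => l.getD a 0) ?_ ?_ ?_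
    · intro a ha; exact (Finset.mem_filter.1 ha).2
    · intro a ha b hb h
      simp only [Finset.mem_filter, Finset.mem_range] at ha hb
      exact getD_inj hl ha.1 hb.1 h
    · intro x hx
      have := List.mem_toFinset.1 (hI.1 hx)
      obtain ⟨a, ha, rfl⟩ := List.getElem_of_mem this
      refine ⟨a, ?_, ?_⟩
      · simp only [Finset.mem_filter, Finset.mem_range]
        rw [List.getD_eq_getElem _ _ ha]
        exact ⟨ha, hx⟩
      · rw [List.getD_eq_getElem _ _ ha]
  refine ⟨fun j => (Finset.orderEmbOfFin _ hcard) j, (Finset.orderEmbOfFin _ hcard).strictMono,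
    fun j => ?_, ?_⟩
  · have := Finset.orderEmbOfFin_mem _ hcard j
    simp only [Finset.mem_filter, Finset.mem_range] at this
    exact this.1
  · ext x
    simp only [Finset.mem_image, Finset.mem_univ, true_and]
    constructor
    · rintro ⟨j, rfl⟩
      have := Finset.orderEmbOfFin_mem _ hcard j
      simp only [Finset.mem_filter, Finset.mem_range] at this
      exact this.2
    · intro hx
      have := List.mem_toFinset.1 (hI.1 hx)
      obtain ⟨a, ha, rfl⟩ := List.getElem_of_mem this
      have hmem : a ∈ (Finset.range l.length).filter fun a => l.getD a 0 ∈ I := by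
        simp only [Finset.mem_filter, Finset.mem_range]
        rw [List.getD_eq_getElem _ _ ha]
        exact ⟨ha, hx⟩
      have hr : a ∈ Set.range (Finset.orderEmbOfFin _ hcard) := by
        rw [Finset.range_orderEmbOfFin]; exact hmem
      obtain ⟨j, hj⟩ := hr
      refine ⟨j, ?_⟩
      rw [hj, List.getD_eq_getElem _ _ ha]

theorem W_mono {R : Type*} [CommRing R] {r : ℕ} (l : List ℕ) (z : Finset ℕ → R) {p : Fin r → ℕ}
    (hp : StrictMono p) : Wv l z p = z (Finset.univ.image fun j => l.getD (p j) 0) := by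
  unfold Wv
  rw [sg_mono hp]; simp

/-- VMAT -/
theorem mat : MatStmt := by
  intro l r hl z hz hne
  obtain ⟨I₀, hI₀⟩ : ∃ I, z I ≠ 0 := by
    by_contra hcon
    push Not at hcon
    exact hne (funext hcon)
  obtain ⟨p₀, hm, hlt, him⟩ := exists_pos hl (XV_supp hz hI₀)
  have hW : Wv l z p₀ ≠ 0 := by rw [W_mono l z hm, him]; exact hI₀
  rcases Nat.eq_zero_or_pos r with rfl | hr
  · refine ⟨z ∅, fun _ _ => 0, fun p _ _ => ?_⟩
    simp
  refine ⟨(Wv l z p₀ ^ (r - 1))⁻¹, fun x i => Wv l z (Function.update p₀ i (l.idxOf x)), ?_⟩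
  intro p hp hpl
  have h1 := XV_cramer hl hz hr hlt hpl
  rw [W_mono l z hp] at h1
  have h2 : ∀ j, l.idxOf (l.getD (p j) 0) = p j := by
    intro j
    rw [List.getD_eq_getElem _ _ (hpl j)]
    exact List.Nodup.idxOf_getElem hl _ _
  simp only [h2]
  rw [← h1]
  field_simp

end ABCT.H91
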